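import Pool.Agent.U449.BV.TYP
import Pool.Agent.Results.MP_4dacf8_ag.AlmostAllMonomials

/-!
# Vojta's height inequality for all but few tuples of monomials: a power saving, and mixed polynomials on arbitrary sets

Let `I 1, …, I s` be nonempty sets of variables among `x_0, …, x_n`, and `r = ∑ (|I i| - 1)` (`fdim I`). We consider the tuples of
monomials `a 1, …, a s` of degree `d`, `a i` in the variables from `I i`; there are about `c d ^ r` of them. The starting result
`AlmostAllMonomials` says that the proportion of those with the property `Good` below tends to `1` for `d → ∞`. Here: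

(1) `Good` fails for at most `C d ^ (r - 2 ^ (-r))` of the tuples, for all `d ≥ 1` (`PowerSaving`).

(2) Let `k = r + 1 ≥ 2`, and let the tuples `(d, a)` of all degrees be given by their `k` coordinates: the degree `d`, and the
exponents in `a i` of all the variables from `I i` but one. Let `0 ≤ κ`, `k - 2 ^ (-r) + k κ < δ ≤ k`, let `p` be a large prime, `f(x, y)` ANY
polynomial of bounded degree over the field of `p ^ k` elements with a monomial which contains both variables (for example
`f = x y`), `A`, `B` ARBITRARY subsets of this field with at least `p ^ δ` elements, and `g`, `h` ARBITRARY functions. For all the pairs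
`(u, v)` in `A × B`, apart from a proportion of at most `p ^ (-ρ)`, `Good` holds for ALL `(d, a)` with all coordinates at a distance of at
most `p ^ κ` from the least residues of the `k` coordinates of `f(u, v) + g(u) + h(v)`. More generally, this holds for the values of
all vector functions of two variables with few coincidences (`RareV`), on arbitrary finite sets.

`Good`: Vojta's height inequality over function fields, in the forms of the starting file, for all the varieties given by linear combinations
of the monomials and of the `x_j ^ d`.

Proof of (1): the tuples are good if certain determinants, which are affine in each of the `r` free exponents, are not small; the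
number of the lattice points where such a function is small is bounded by induction on the number of the variables, with a power
saving (`Pool/Agent/U449/BV/PW.lean`, `GEN.lean`). Proof of (2): the sets and the functions `g` and `h` are arbitrary, and a vector may be taken
by very many pairs, so the number of the exceptions does not give the result directly; the inequality of Cauchy and Schwarz, and
for most pairs `u, u'` the difference of the values at `(u, v)` and `(u', v)` is small for few `v` (`Pool/Agent/U449/BV/V.lean`).
-/

set_option autoImplicit false

namespace Pool.Agent.Results.MP_4dacf8_ag.MonomialsPowerSaving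

open FF MvPolynomial Pool.Agent.W602.GT Pool.Agent.W603.LV Pool.Agent.W603.PV Pool.Agent.R869.Wd
open Pool.Agent.Results.MP_4dacf8_ag.AlmostAllMonomials
open Pool.Agent.U449.BV (RareV OnProductsV coordinates PowerSaving NearTuples on_typI)

/-- The property of the starting result: there is a number `A` such that for all systems `G` of linear combinations of the monomials
`a i` and of the `x_j ^ d` with coefficients in function fields the uniform height inequality holds; for the irreducible components
Vojta's height inequality outside of a proper closed subset is equivalent to log general type; if the coefficient vectors are in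
general position, then it holds for the points for which the set of the nonzero coordinates satisfies `Spread`; for one form
`LooseCriterion`. -/
def Good {n s : ℕ} (I : Fin s → Finset (Fin (n + 1))) (d : ℕ) (a : Fin s → (Fin (n + 1) →₀ ℕ)) : Prop :=
  ∃ A : ℕ, UniformVojta (withPowers d a) A ∧
    ∀ (k F : Type) [Field k] [IsAlgClosed k] [CharZero k] [Field F] [Algebra k F] [IsFF k F]
      (U : Set (Fin (n + 1))),
      (∀ (m : ℕ) (G : Fin m → MvPolynomial (Fin (n + 1)) F),
        (∀ e, (G e).support ⊆ withPowers d a) → Components k F U A G ∧
        (GenCoeffs G (withPowers d a) → Vojta k F U A (fun L _ _ f => PtL U G L f ∧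
          ∀ J : Finset (Fin (n + 1)), (∀ j, f j ≠ 0 ↔ j ∈ J) → Spread I m J))) ∧
      ∀ G : MvPolynomial (Fin (n + 1)) F, G.support ⊆ withPowers d a →
        LooseCriterion k F U A G

theorem good_of_typ {n s : ℕ} {I : Fin s → Finset (Fin (n + 1))} {d : ℕ} {a : Fin s → (Fin (n + 1) →₀ ℕ)}
    (hty : TypI I d a) : Good I d a := by
  classical
  have h := hty
  obtain ⟨s', N, hg⟩ := h.good
  obtain ⟨A, hA⟩ := hg.nbound
  refine ⟨A, ?_, ?_⟩
  · intro k L _ _ _ _ _ _ m G C hGC U f hf
    have h1 := hA k L L (Fin m) G C (fun e => (hGC e).1) (fun e => (hGC e).2) U f hf
    by_cases hp : Parts G f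
    · left
      obtain ⟨b, i, i', hi, hi', hb, hw⟩ := hp
      refine ⟨b, ⟨i, i', hi, hi', hb⟩, fun t ht => ⟨?_, fun j hj =>
        mul_ne_zero (zpow_ne_zero _ ht) (hf.unit j hj), fun e => ?_⟩⟩
      · intro h0
        exact mul_ne_zero (zpow_ne_zero _ ht) hi (congrFun h0 i)
      · exact val_orbit (L := L) f b ht (G e) (hw e)
    · exact Or.inr (h1 hp)
  · intro k F _ _ _ _ _ _ U
    refine ⟨fun m G hG => ⟨?_, fun hgc => h.genN hA hG hgc⟩, fun G hG => ⟨?_, h.allN hA hG⟩⟩
    · intro K _ _ w y hw hy hcomp
      exact comp_tfaeN hg hA hG hw hy hcomp
    · intro J hJ hU
      exact h.critN hA hG hJ hU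

/-- **Theorem.** (1) For all nonempty sets `I i` of variables the property `Good` holds for all but at most `C d ^ (r - 2 ^ (-r))` of the
tuples of monomials of degree `d`, the `i`-th one in the variables from `I i`, `r = ∑ (|I i| - 1)`. (2) If `r ≥ 1`, it holds for all
the tuples near almost all values of vector functions of two variables with few coincidences on arbitrary sets
(`OnProductsV`). The tuples of the least residues modulo `p` of the coordinates (with respect to a basis over the field of `p`
elements) of `f(a, b) + g(a) + h(b)` in a field of `p ^ k` elements are such a function, with `X = p`, for all polynomials `f` over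
this field with a monomial which contains both variables, arbitrary functions `g` and `h`, and arbitrary finite subsets. -/
theorem result :
    (∀ (n s : ℕ) (I : Fin s → Finset (Fin (n + 1))), (∀ i, (I i).Nonempty) → PowerSaving I (Good I) ∧
      (1 ≤ fdim I → ∀ piv : Fin s → Fin (n + 1), (∀ i, piv i ∈ I i) →
        ∀ (e : Option (Free I piv) ≃ Fin (fdim I + 1)) (κ : ℝ), 0 ≤ κ →
          OnProductsV (fdim I + 1) ((fdim I : ℝ) + 1 - (1 / 2) ^ fdim I + ((fdim I : ℝ) + 1) * κ) κ
            (NearTuples I piv e (Good I)))) ∧
    ∀ (p : ℕ) [Fact p.Prime] (k : ℕ) (K : Type) [Field K] [Algebra (ZMod p) K] (e : Module.Basis (Fin k) (ZMod p) K)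
      (d : ℕ) (f : MvPolynomial (Fin 2) K), f.totalDegree ≤ d → (∃ m ∈ f.support, m 0 ≠ 0 ∧ m 1 ≠ 0) →
      ∀ (g h : K → K) (A B : Finset K),
        RareV d A B (fun a b i => (((e.repr (MvPolynomial.eval ![a, b] f + g a + h b) i).val : ℕ) : ℝ)) :=
  ⟨fun _ _ _ hI => on_typI hI fun _ _ h => good_of_typ h, coordinates⟩

end Pool.Agent.Results.MP_4dacf8_ag.MonomialsPowerSaving
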