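import Mathlib
import Pool.Agent.U582.NP.MAll
import Pool.Agent.U582.GV.Main
import Pool.Agent.U582.GV.Orb
import Pool.Agent.U582.GV.Cov
import Pool.Agent.U582.GV.Ext

/-!
MP_4dacf8_ag, Q1: Vojta's height inequality over function fields, with truncated counting function
and empty exceptional set, for the complements of at least `n + 1` Zariski-general moving
hypersurface sections of a projective variety of dimension `n`, for all their strata, and for all
their finite covers.

Let `K ⊃ k` be fields of characteristic zero, `K` algebraically closed, and let `V` be a closed subset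
of projective space, given by forms over `k`, of dimension at most `n`, with arbitrary
singularities, for instance projective space of dimension `n`. Let `q ≥ n + 1`, and let
`d_1, …, d_q` be positive integers.

THEOREM. There are a nonzero polynomial `Φ`, with coefficients in `k`, in the coefficients of `q`
forms of degrees `d_1, …, d_q`, and a number `A ≥ 1`, with the following properties. Let `C` be a
proper subset of the indices with `d_1 + … + d_q + |C| ≥ 2 n + 1`; for instance the empty set, if
`d_1 + … + d_q ≥ 2 n + 1`.

(1) Let `L` be a function field of one variable over `K` (the function field of a curve `B_P`), and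
let `D = (D_1, …, D_q)` be forms of degrees `d_1, …, d_q` over `L` with `Φ (D) ≠ 0`. Let `x` be a
point of `V` over `L` with `D_c (x) = 0` for `c ∈ C` and `D_b (x) ≠ 0` for `b ∉ C`. Then
  `h (x) ≤ A (max (2 g (L) - 2 + N (x), 0) + h (D_1) + … + h (D_q))`,
where `N (x)` is the number of the places of `L` at which `x` meets one of the divisors `D_b = 0`,
`b ∉ C`, with a multiplicity less than `A`. Here `h (D_b)` is the height of the point given by the
coefficients of `D_b`.

(2) Let `F` be a function field of one variable over `K`, and let `D = (D_1, …, D_q)` be forms of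
degrees `d_1, …, d_q` over `F` with `Φ (D) ≠ 0`. Let `W` be a closed subset of a projective space over
`F` and `g` a finite morphism from `W` to the projective space which contains `V`, given by forms of
degree `e` over `F` without common zero on `W`. There is a constant `B` such that for all `C` as
above, all finite extensions `L` of `F` and all points `x` of `W` over `L` for which `g (x)` is in
`V`, `D_c (g (x)) = 0` for `c ∈ C` and `D_b (g (x)) ≠ 0` for `b ∉ C`,
  `e h (x) ≤ A max (2 g (L) - 2 + N (g (x)), 0) + B [L : F]`.

Division by `[L : F]` gives the inequality of Q1: the heights of the problem are normalised by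
`[L : F]`, `2 g (L) - 2` is `[L : F] χ (P)`, and `N (g (x))` is at most `[L : F] N^(1)_D (P)`, the
number of all the places at which `g (x)` meets `D`. For instance, for `V = P^n` and `C` empty,
`K + D` is `d_1 + … + d_q - n - 1 ≥ n` times a hyperplane (`n ≥ 1`), so that the height for `K + D` is
this multiple of `h`; for nonempty `C` the same is true for the complete intersection `D_c = 0`,
`c ∈ C`, with the divisor of the `D_b = 0`, `b ∉ C`. The number `A` depends only on `V`, on the
degrees and on `K`, and neither on `F`, `D`, `W`, `g`, nor on `L` and the point; and in (1) the error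
term is linear in the height of the divisor. The exceptional set is the divisor. If
`d_1 + … + d_q + |C| < 2 n + 1`, then an exceptional set is needed in general: for `V = P^n` the
complement of general divisors with `d_1 + … + d_q ≤ 2 n` contains images of the multiplicative group.

The order of contact of `x` with `D_b = 0` at the place `P` is `ord_P (D_b (x))`, minus `d_b` times
the minimum of the orders of the coordinates of `x`, minus the minimum of the orders of the
coefficients of `D_b`.

About the proof. For a sequence of counterexamples one passes to the limit: the coefficients of the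
forms become algebraically independent elements `t` of the field `κ` of the sequences of small
height, and the points become a point of the complement of the forms with the coefficients `t`. The
closure of this point over `κ` is a subvariety of logarithmic general type (`lg_rel` in
`Pool/Agent/U582/NP/GcP.lean`, adapted from the library theorem `TH145/GL/Main.lean` to the field `κ`
which is not algebraically closed, but relatively algebraically closed). As there are at least
`n + 1` forms, the coordinates of the point are algebraic over the quotients of the powers of the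
values of the forms, which have few zeros and poles; therefore the theorem on values of logarithmic
forms along such sequences (the library theorem of `N131/FM`, in the form `small_of_lgt` in
`Pool/Agent/U582/NP/Sml.lean`) shows that the heights are small, a contradiction (`coreM` in
`Pool/Agent/U582/NP/MCore.lean`).
-/

set_option autoImplicit false

namespace Pool.Agent.Results.MP_4dacf8_ag.MovingDimensionPlusOne

open MvPolynomial FF Pool.Agent.W603.LV Pool.Agent.W603.PV Pool.Agent.U582.GV

/-- The closed subset of the projective space of dimension `M` given by the forms in `V` has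
dimension at most `n`: there are `n + 1` linear forms without common zero on it. -/
def DimLE {k : Type} [Field k] {M : ℕ} (V : Set (MvPolynomial (Fin (M + 1)) k)) (n : ℕ) : Prop :=
  ∃ ℓ : Fin (n + 1) → MvPolynomial (Fin (M + 1)) k, (∀ j, (ℓ j).IsHomogeneous 1) ∧
    ∀ y : Fin (M + 1) → AlgebraicClosure k,
      (∀ H ∈ V, aeval y H = 0) → (∀ j, aeval y (ℓ j) = 0) → y = 0

/-- The indices of the coefficients of `q` forms of degrees `d i` in `M + 1` variables. -/
abbrev Index (M : ℕ) {q : ℕ} (d : Fin q → ℕ) : Type :=
  (i : Fin q) × {β : Fin (M + 1) →₀ ℕ // β.degree = d i}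

/-- `D` is a family of forms over `F` of degrees `d i`, and `Φ (D) ≠ 0`. -/
def General {k : Type} [Field k] {M q : ℕ} {F : Type} [Field F] [Algebra k F] {d : Fin q → ℕ}
    (Φ : MvPolynomial (Index M d) k) (D : Fin q → MvPolynomial (Fin (M + 1)) F) : Prop :=
  (∀ i, (D i).IsHomogeneous (d i)) ∧ aeval (fun s : Index M d => coeff s.2.1 (D s.1)) Φ ≠ 0

/-- `x` is a vector of homogeneous coordinates of a point of `V` at which the forms `D c`, `c ∈ C`,
vanish, and the forms `D b`, `b ∉ C`, do not vanish. -/
structure OnStratum {k : Type} [Field k] {L : Type} [Field L] [Algebra k L] {M q : ℕ}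
    (V : Set (MvPolynomial (Fin (M + 1)) k)) (D : Fin q → MvPolynomial (Fin (M + 1)) L)
    (C : Finset (Fin q)) (x : Fin (M + 1) → L) : Prop where
  ne : x ≠ 0
  onV : ∀ H ∈ V, aeval x H = 0
  onC : ∀ c ∈ C, aeval x (D c) = 0
  off : ∀ b, b ∉ C → aeval x (D b) ≠ 0

/-- `W` is a set of forms over `F`, and the forms `G j` of degree `e` have no common zero on the
closed subset `W = 0` of the projective space of dimension `m`; they define a finite morphism from
it to the projective space of dimension `M`. -/
structure Morphism {F : Type} [Field F] {m M : ℕ} (W : Set (MvPolynomial (Fin (m + 1)) F))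
    (G : Fin (M + 1) → MvPolynomial (Fin (m + 1)) F) (e : ℕ) : Prop where
  forms : ∀ H ∈ W, ∃ a, H.IsHomogeneous a
  degree : ∀ j, (G j).IsHomogeneous e
  noZero : ∀ y : Fin (m + 1) → AlgebraicClosure F, (∀ H ∈ W, aeval y H = 0) →
    (∀ j, aeval y (G j) = 0) → y = 0

/-- The point with the coordinates `G j (x)`. -/
noncomputable def image {F : Type} [Field F] {m M : ℕ} (G : Fin (M + 1) → MvPolynomial (Fin (m + 1)) F)
    {L : Type} [Field L] [Algebra F L] (x : Fin (m + 1) → L) : Fin (M + 1) → L :=
  fun j => aeval x (G j)

/-- The forms `D b` over `F`, as forms over the extension `L` of `F`. -/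
noncomputable def baseChange {F : Type} [Field F] {M q : ℕ} (D : Fin q → MvPolynomial (Fin (M + 1)) F)
    (L : Type) [Field L] [Algebra F L] : Fin q → MvPolynomial (Fin (M + 1)) L :=
  fun b => map (algebraMap F L) (D b)

theorem result {k K : Type} [Field k] [CharZero k] [Field K] [Algebra k K] [IsAlgClosed K]
    {M n q : ℕ}
    -- the variety
    (V : Set (MvPolynomial (Fin (M + 1)) k)) (hV : ∀ H ∈ V, ∃ e, H.IsHomogeneous e)
    (hn : DimLE V n)
    -- the degrees
    (d : Fin q → ℕ) (hd : ∀ b, 0 < d b) (hq : n + 1 ≤ q) :
    ∃ (Φ : MvPolynomial (Index M d) k) (A : ℕ), Φ ≠ 0 ∧ 0 < A ∧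
        -- (1) forms over `L`
        (∀ (L : Type) [Field L] [Algebra K L] [IsFF K L] [Algebra k L] [IsScalarTower k K L]
          (D : Fin q → MvPolynomial (Fin (M + 1)) L), General Φ D →
          ∀ C : Finset (Fin q), C ≠ Finset.univ → 2 * n + 1 ≤ ∑ b, d b + C.card →
          ∀ x : Fin (M + 1) → L, OnStratum V D C x →
            (lowPlaces K A d D C x).Finite ∧
            pht K x ≤ A * (max (canDeg K L + (lowPlaces K A d D C x).ncard) 0 +
              ∑ b, formHeight K (D b))) ∧
        -- (2) forms over `F`, points over finite extensions, finite covers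
        ∀ (F : Type) [Field F] [Algebra K F] [IsFF K F] [Algebra k F] [IsScalarTower k K F]
          (D : Fin q → MvPolynomial (Fin (M + 1)) F), General Φ D →
          ∀ (m e : ℕ) (W : Set (MvPolynomial (Fin (m + 1)) F))
            (G : Fin (M + 1) → MvPolynomial (Fin (m + 1)) F), Morphism W G e →
            ∃ B : ℕ, ∀ C : Finset (Fin q), C ≠ Finset.univ → 2 * n + 1 ≤ ∑ b, d b + C.card →
              ∀ (L : Type) [Field L] [Algebra K L] [IsFF K L] [Algebra F L] [IsScalarTower K F L]
                [Algebra k L] [IsScalarTower k K L] [FiniteDimensional F L]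
                (x : Fin (m + 1) → L), x ≠ 0 → (∀ H ∈ W, aeval x H = 0) →
                OnStratum V (baseChange D L) C (image G x) →
                (lowPlaces K A d (baseChange D L) C (image G x)).Finite ∧
                e * pht K x ≤
                  A * max (canDeg K L + (lowPlaces K A d (baseChange D L) C (image G x)).ncard) 0 +
                    B * Module.finrank F L := by
  classical
  obtain ⟨ℓ, hℓ, hℓ0⟩ := hn
  have hK : CharZero K := charZero_of_injective_algebraMap (algebraMap k K).injective
  obtain ⟨Φ, c, hΦ, h1⟩ := Pool.Agent.U582.NP.mov_allK (K := K) hV hℓ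
    (Pool.Agent.NH29.GN.Fn.noZero_of_points hℓ0) hq hd
  obtain ⟨A, hA⟩ : ∃ A : ℕ, A = 2 * c * ∑ b, d b + 2 * c + 1 := ⟨_, rfl⟩
  have key : ∀ (L : Type) [Field L] [Algebra K L] [IsFF K L] [Algebra k L] [IsScalarTower k K L]
        (D : Fin q → MvPolynomial (Fin (M + 1)) L), General Φ D →
        ∀ C : Finset (Fin q), C ≠ Finset.univ → 2 * n + 1 ≤ ∑ b, d b + C.card →
        ∀ x : Fin (M + 1) → L, OnStratum V D C x →
          (∀ b, D b ≠ 0) ∧ (lowPlaces K A d D C x).Finite ∧
          pht K x ≤ A * (max (canDeg K L + (lowPlaces K A d D C x).ncard) 0 +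
            ∑ b, formHeight K (D b)) := by
    intro L _ _ _ _ _ D hD C hC hsz x hx
    -- the forms are not zero
    have hD0 : ∀ b, D b ≠ 0 := by
      obtain ⟨b₀, -, hb₀⟩ := Finset.exists_of_ssubset (Finset.ssubset_univ_iff.2 hC)
      have hT : ∃ T : Finset (Place K L), ∀ b, b ∉ C → ∀ P ∉ T, contact P (D b) (d b) x = 0 := by
        have h2 : ∀ b, ∃ T : Finset (Place K L), b ∉ C → ∀ P ∉ T,
            contact P (D b) (d b) x = 0 := by
          intro b
          by_cases hb : b ∈ C
          · exact ⟨∅, fun h => absurd hb h⟩
          · obtain ⟨T, h2, -⟩ := contact_sum (K := K) (hD.1 b) hx.ne (hx.off b hb)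
            exact ⟨T, fun _ => h2⟩
        choose T hT using h2
        refine ⟨Finset.univ.biUnion T, fun b hb P hP => hT b hb P fun h => hP ?_⟩
        exact Finset.mem_biUnion.2 ⟨b, Finset.mem_univ b, h⟩
      obtain ⟨T, hT⟩ := hT
      exact (h1 L D hD.1 hD.2 C hC hsz T x hx.ne hx.onV hx.onC hx.off hT).1
    exact ⟨hD0, low c d hd C hC D hD0 hD.1 hx.ne hx.off hA fun S hS =>
      (h1 L D hD.1 hD.2 C hC hsz S x hx.ne hx.onV hx.onC hx.off hS).2⟩
  refine ⟨Φ, A, hΦ, by omega, fun L _ _ _ _ _ D hD C hC hsz x hx =>
    (key L D hD C hC hsz x hx).2, ?_⟩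
  intro F _ _ _ _ _ D hD m e W G hWG
  obtain ⟨B₁, hB₁⟩ := cover_ht (K := K) hWG.degree hWG.noZero hWG.forms
  have hB₂ : ∀ b, ∃ B : ℕ, D b ≠ 0 → ∀ (L : Type) [Field L] [Algebra K L] [IsFF K L]
      [Algebra F L] [IsScalarTower K F L] [FiniteDimensional F L],
      formHeight K (map (algebraMap F L) (D b)) ≤ B * Module.finrank F L := by
    intro b
    by_cases hb : D b = 0
    · exact ⟨0, fun h => absurd hb h⟩
    · obtain ⟨B, hB⟩ := formHeight_map (K := K) hb
      exact ⟨B, fun _ => hB⟩
  choose B₂ hB₂ using hB₂
  refine ⟨B₁ + A * ∑ b, B₂ b, fun C hC hsz L _ _ _ _ _ _ _ _ x hx hxW hst => ?_⟩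
  have hkFL : ∀ a : k, algebraMap F L (algebraMap k F a) = algebraMap k L a := by
    intro a
    rw [IsScalarTower.algebraMap_apply k K F, IsScalarTower.algebraMap_apply k K L,
      ← IsScalarTower.algebraMap_apply K F L]
  have hgen : General Φ (baseChange D L) := by
    refine ⟨fun b => (hD.1 b).map _, ?_⟩
    have h2 : aeval (fun s : Index M d => coeff s.2.1 (baseChange D L s.1)) Φ =
        algebraMap F L (aeval (fun s : Index M d => coeff s.2.1 (D s.1)) Φ) := by
      rw [aeval_def, aeval_def, hom_eval₂]
      have h3 : (algebraMap F L).comp (algebraMap k F) = algebraMap k L := RingHom.ext hkFL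
      rw [h3]
      congr 1
    rw [h2, Ne, map_eq_zero]
    exact hD.2
  obtain ⟨h2, h3, h4⟩ := key L (baseChange D L) hgen C hC hsz (image G x) hst
  refine ⟨h3, ?_⟩
  have h5 := (hB₁ L x hx hxW).2
  have hDb : ∀ b, D b ≠ 0 := fun b hb => h2 b (by
    change map (algebraMap F L) (D b) = 0
    rw [hb, map_zero])
  have h6 : ∑ b, formHeight K (baseChange D L b) ≤ (∑ b, B₂ b : ℕ) * Module.finrank F L := by
    push_cast
    rw [Finset.sum_mul]
    exact Finset.sum_le_sum fun b _ => hB₂ b (hDb b) L
  have h7 : (A : ℤ) * (max (canDeg K L + (lowPlaces K A d (baseChange D L) C (image G x)).ncard) 0 +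
      ∑ b, formHeight K (baseChange D L b)) ≤
      A * (max (canDeg K L + (lowPlaces K A d (baseChange D L) C (image G x)).ncard) 0 +
      (∑ b, B₂ b : ℕ) * Module.finrank F L) :=
    mul_le_mul_of_nonneg_left (by linarith) (Int.natCast_nonneg A)
  have h8 : ((B₁ + A * ∑ b, B₂ b : ℕ) : ℤ) * Module.finrank F L =
      B₁ * Module.finrank F L + A * ((∑ b, B₂ b : ℕ) * Module.finrank F L) := by
    push_cast
    ring
  rw [h8]
  change (e : ℤ) * pht K x ≤ pht K (image G x) + B₁ * Module.finrank F L at h5
  rw [mul_add] at h7
  linarith

end Pool.Agent.Results.MP_4dacf8_ag.MovingDimensionPlusOne
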