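import Pool.Agent.R869.VEnd

/-!
MP_4dacf8_ag, Q1: Vojta's height inequality over function fields, for quasi-projective varieties on
which one relation between high powers of forms, with arbitrary cofactors, holds.
-/

set_option autoImplicit false

namespace Pool.Agent.Results.MP_4dacf8_ag.OneRelationVojta

open FF MvPolynomial Pool.Agent.W603.LV Pool.Agent.W603.PV Pool.Agent.W602.GT Pool.Agent.R869

/-- **One relation suffices for Vojta's height inequality over function fields.** Let `F` be a
function field of one variable over the algebraically closed field `k` of characteristic zero. Let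
`X` be the complement of the hypersurface `Q = 0` in the integral closed subvariety of projective
space over `F` with the homogeneous prime ideal `p`, of any dimension and with any singularities.
Suppose that on `X` there is ONE relation

`∑ a_l u_l b_l ^ N_l = 0`, with `s ≥ 2` terms of the same degree `e`,

no proper partial sum of which vanishes on `X`. Here all forms have coefficients in `F`, the
cofactors `a_l` are any forms of degree at most `δ`, the forms `u_l` have no zeros on `X` (they
divide a power of `Q` modulo `p`), some of the forms `b_l` of positive degree, with `u_l = 1`, have no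
common zeros on the closure of `X` over the algebraic closure of `F`, and the exponents `N_l` are at
least `s ^ 4 (δ + 1)`. (This is the structure `CoRel` with the conditions `Large δ` and `Base`.) Let
`R` be the product of all proper partial sums. Then `{R = 0}` is a proper closed subset of `X`, and
there is a number `A` such that for all finite extensions `L` of `F` and all points `y` of `X` over
`L` not in `{R = 0}`

`e h(y) ≤ (s - 1) ^ 2 (s - 2) (2 g(L) - 2 + N1(y)) + A [L : F]`.

Here `h` is the height relative to `L`, `g(L)` is the genus of `L`, and `N1(y)` is the number of the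
places of `L` at which `y` meets the boundary `Q = 0`, counted without multiplicities. -/
theorem result {k F : Type} [Field k] [Field F] [Algebra k F] [IsAlgClosed k] [CharZero k]
    [IsFF k F] {n q : ℕ} (p : Ideal (MvPolynomial (Fin (n + 1)) F)) [p.IsPrime] (hp : IsHomog p)
    (Q : MvPolynomial (Fin (n + 1)) F) {J : Type} [Fintype J] (C : CoRel p Q q J) {δ : ℕ}
    (hC : C.Large δ) (hb : C.Base) :
    ((∃ d, C.R.IsHomogeneous d) ∧ C.R ∉ p) ∧
    ∃ A : ℕ, ∀ (L : Type) [Field L] [Algebra k L] [Algebra F L] [IsScalarTower k F L]
      [FiniteDimensional F L] (y : Fin (n + 1) → L), y ≠ 0 → (∀ H ∈ p, val y H = 0) →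
      val y Q ≠ 0 → val y C.R ≠ 0 →
      C.e * pht k y ≤ ((Fintype.card J - 1) ^ 2 * (Fintype.card J - 2) : ℕ) *
        (canDeg k L + (meets (k := k) Q q y).ncard) + A * Module.finrank F L := by
  refine ⟨⟨C.R_hom, C.R_notMem⟩, ?_⟩
  obtain ⟨A, hA⟩ := CoRel.vojta (k := k) hp C hC hb
  refine ⟨A, fun L _ _ _ _ _ y hy0 hy hyQ hyR => ?_⟩
  have h := hA L y hy0 hy hyQ hyR
  have e : (Fintype.card J - 1) ^ 2 * (Fintype.card J - 2) = 2 * LLs (Fintype.card J) := by
    obtain ⟨t, ht⟩ : ∃ t, Fintype.card J = t + 2 :=
      ⟨Fintype.card J - 2, by have := hC.1; omega⟩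
    rw [ht, two_LLs t]
    have e1 : t + 2 - 1 = t + 1 := by omega
    have e2 : t + 2 - 2 = t := by omega
    rw [e1, e2]
    ring
  rw [e]
  exact h

end Pool.Agent.Results.MP_4dacf8_ag.OneRelationVojta
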