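import Pool.Agent.U723.GT.VojAll

/-!
MP_4dacf8_ag, Q1 with `D = 0`, for all varieties over function fields which carry a rational map of the
projective line with many preperiodic points and a generically finite moduli map.

`k` is an algebraically closed field of characteristic zero, `F` the function field of a curve over `k`
(`IsFF k F`), `X` an integral projective variety over `F` (any dimension, not necessarily constant or
isotrivial), given by its function field and the homogeneous coordinates `y` of its generic point (`y ≠ 0`;
`coords F y = ⊤`: the ratios of the coordinates generate the function field over `F`).

`ManyPrep F d n p q` (`Pool/Agent/Q103/EC/Mxv.lean`): `f = p / q` is a rational map of the projective line over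
the extension `K` of `F` (the function field of a variety `X₀` over `F`) of degree `d` (a family of rational
maps over an open subset of `X₀`) with at least `n` preperiodic points in `P^1(K)`, and the moduli map of `X₀`
to `M_d` over `F` is generically finite: if `f` is conjugate over an algebraic closure of `K` to a map with
coefficients algebraic over a field between `F` and `K`, then `K` is algebraic over this field.

`K'` is an algebraic extension of `K`; so `X`, with function field `K'`, is any projective variety over `F` with
a dominant generically finite rational map to `X₀` (for instance `X₀` itself or a smooth model).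

`GeneralType F K' w`: the transcendence degree of `K'` over `F` is `w` and for some `m > 0` there are `w + 1`
rational `m`-canonical forms of `K'` over `F`, regular at all prime divisors of all models, whose ratios are of
transcendence degree `w`. `OnVar F y f`: `f` is a point of `X` with coordinates in the extension `L` of `F`.
`canDeg k L = 2 g - 2 = χ(B_P)` for the smooth projective curve `B_P` with function field `L`; `pht k f` is the
(not normalised) height of the point `f`, the degree of the map `f` from `B_P` to the projective space; so
`pht k f / [L : F]` is the height of the problem for the hyperplane bundle.

Theorem. For every `d ≥ 2` there is `B` such that for all `k`, `F`, `K` and all maps with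
`ManyPrep F d B p q`, all `K'` and `X` as above:

(1) `X` is of general type (if its dimension is positive);

(2) there are a proper closed subset `Z = {G = 0}` of `X` and constants `A`, `A'` such that for all function
fields `L` of curves over `k` which contain `F` and all points `P = (f 0 : … : f M)` of `X` over `L` outside
of `Z` the height is at most `A max(χ(B_P), 0) + A' [L : F]`.

Dividing by `n = [L : F]`, and with `max(χ(B_P), 0) ≤ χ(B_P) + 2`: `h(P) ≤ A χ(P) + 2 A + A'` for the ample
height `h`, and the height of `K_𝒳` is at most a constant times `h` plus a constant (also off a closed set), so
this is the inequality of Q1 for `X` with `D = 0`, for algebraic points of all degrees.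

(3) Such varieties `X₀` exist over every field `F` of characteristic zero for all `n ≥ 3`, of dimension
`2 d - 2` (components of the moduli spaces of maps with a marked point of exact period `n`).

Proof. The preperiodic points of `f` and the stable set which they form specialise at all points `P` outside
of a proper closed subset to a stable set over `L` with as many points, so the cross ratios of the
specialised points have degree at most `C max(2 g - 2, 0)` by the theorem of project GT (starting files,
only with constant coefficients). The coordinates of `P` are roots of polynomials in these cross ratios with
coefficients in `F`, the same for all `P`. The height of a coefficient `a` in `F` over `L` is `[L : F]` times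
its height over `F`, which gives the second term (`hgt_poly`, `voj_stab` in `Pool/Agent/U723/GT/Voj.lean`).
-/

set_option autoImplicit false

namespace Pool.Agent.Results.MP_4dacf8_ag.VojtaManyPreperiodic

open FF Polynomial
open Pool.Agent.W602.GT (coords val IsForm GeneralType)
open Pool.Agent.Y216 (OnVar)
open Pool.Agent.W603.LV (canDeg)
open Pool.Agent.W603.PV (pht)
open Pool.Agent.Q103.EC (ManyPrep)

/-- The height inequality for the projective variety over `F` with the generic point `y`: for the points
outside of a proper closed subset `G = 0` over the finite extensions `L` of `F` the height is at most
`A max(2 g - 2, 0) + A' [L : F]`. -/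
def VojtaInequality (k F : Type) [Field k] [Field F] [Algebra k F] {K : Type} [Field K]
    [Algebra F K] {M : ℕ} (y : Fin (M + 1) → K) : Prop :=
  ∃ G : MvPolynomial (Fin (M + 1)) F, IsForm G ∧ val y G ≠ 0 ∧ ∃ A A' : ℕ,
    ∀ (L : Type) [Field L] [Algebra k L] [Algebra F L] [IsScalarTower k F L] [IsFF k L]
      (f : Fin (M + 1) → L), OnVar F y f → val f G ≠ 0 →
      pht k f ≤ A * max (canDeg k L) 0 + A' * Module.finrank F L

/-- See the explanation at the beginning of the file. -/
theorem result (d : ℕ) (hd : 2 ≤ d) :
    (∃ B : ℕ, ∀ (k F K : Type) [Field k] [IsAlgClosed k] [CharZero k] [Field F] [Algebra k F]
      [IsFF k F] [Field K] [Algebra F K] (p q : K[X]), ManyPrep F d B p q →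
      ∀ (K' : Type) [Field K'] [Algebra F K'] [Algebra K K'] [IsScalarTower F K K']
        [Algebra.IsAlgebraic K K'],
      (∀ w : ℕ, 1 ≤ w → Algebra.trdeg F K' = w → GeneralType F K' w) ∧
      ∀ (M : ℕ) (y : Fin (M + 1) → K'), y ≠ 0 → coords F y = ⊤ → VojtaInequality k F y) ∧
    ∀ (F : Type) [Field F] [CharZero F] (n : ℕ), 3 ≤ n →
      ∃ (K : Type) (_ : Field K) (_ : Algebra F K) (p q : K[X]), ManyPrep F d n p q ∧
        Algebra.trdeg F K = (2 * d - 2 : ℕ) :=
  ⟨Pool.Agent.U723.GT.vojta_all d hd, Pool.Agent.U723.GT.exists_fld d hd⟩

end Pool.Agent.Results.MP_4dacf8_ag.VojtaManyPreperiodic
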